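import Pool.Agent.Helper86.AN.Stmts

set_option autoImplicit false

/-!
# MP_4042d8_co (Ando): special tiles of different kinks, both outer colours false
-/

namespace Pool.Agent.Helper97.AN

open Pool.Agent.Helper86.AN Finset

theorem st_L2Q (hEV : ST_EV) (hRF : ST_RF) (hCOL : ST_COL) (hINN : ST_INN) (hENVF : ST_ENVF) :
    ST_L2Q := by
  intro V _ _ s A m w u n e c i a b a' b' hK hZ hE hab hbn ha hb k1 k2 k3 k4
  obtain ⟨-, r2, r3, r4, r5, r6, -, -, -⟩ := hRF V s A m w u hK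
  obtain ⟨-, c2, c3, -, -, c6, -, -⟩ := hCOL V s A m w u n e c i a b hK hZ hE hab hbn
  obtain ⟨d1, -, -, -, -, -, d7, d8⟩ := hCOL V s A m w u n e c (!i) a b hK hZ hE hab hbn
  obtain ⟨-, -, f3, -, -⟩ := hENVF V s A m w u n e c hK hZ hE
  have hinn := hINN V s A m w u n e c (!i) a b hK hZ hE hab hbn
  simp only [Bool.not_not] at d7 d8 hinn
  set K := col w u e i c a b with hKd
  set K' := col w u e (!i) c a b with hKd'
  have hwA : ∀ k, w (e k) ∈ Ap A u := fun k => (hK.winv _ (hZ.eA k)).1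
  -- the neighbours of the kinks are vertices `e k`
  have hnb : ∀ i', (∃ k, e k = s (u i')) ∧ (∃ l, e l = s.symm (u i')) := by
    intro i'
    by_cases h : i' = i
    · subst h
      rcases ha with ⟨h1, h2⟩ | ⟨h1, h2⟩
      · exact ⟨⟨_, h1⟩, _, h2⟩
      · exact ⟨⟨_, h1⟩, _, h2⟩
    · have h' : i' = !i := by
        revert h; cases i <;> cases i' <;> simp
      subst h'
      rcases hb with ⟨h1, h2⟩ | ⟨h1, h2⟩
      · exact ⟨⟨_, h1⟩, _, h2⟩
      · exact ⟨⟨_, h1⟩, _, h2⟩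
  have hout : ∀ k, rr s w (w (e k)) ∈ Ap A u := by
    intro k
    rw [r2]
    refine ⟨(r5 _ (hwA k)).1, ?_⟩
    intro i' h
    rcases (r6 _ (hwA k) i').1 h with h | h
    · obtain ⟨⟨l, hl⟩, -⟩ := hnb i'
      exact f3 l k (by rw [hl, h])
    · obtain ⟨-, l, hl⟩ := hnb i'
      exact f3 l k (by rw [hl, h])
  have g1 : rr s w (e a) = u i := by
    rw [r6 _ (hZ.eA a)]
    rcases ha with ⟨h1, _⟩ | ⟨_, h1⟩
    · exact Or.inl h1
    · exact Or.inr h1
  have g2 : rr s w (e b) = u (!i) := by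
    rw [r6 _ (hZ.eA b)]
    rcases hb with ⟨h1, _⟩ | ⟨_, h1⟩
    · exact Or.inl h1
    · exact Or.inr h1
  have g3 : K' (e a) = true := by
    rw [c6 _ (hZ.eA a)]
    have : e a = e (a + n) := by
      rw [hZ.per]
      exact ⟨-1, by ring⟩
    rw [this]
    exact (c2 (a + n) (by have := hZ.npos; omega) le_rfl).2 hbn
  have g4 : K' (e a') = true := by rw [c6 _ (hZ.eA a')]; exact k1
  have g5 : K' (e b') = true := by rw [c6 _ (hZ.eA b')]; exact k2
  have g6 : K' (rr s w (w (e a))) = false := by rw [c6 _ (hout a)]; exact k3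
  have g7 : K' (rr s w (w (e b))) = false := by rw [c6 _ (hout b)]; exact k4
  have i1 : ∀ v, v ∈ inn s A K' true ↔ v = e a ∨ v = u i := by
    intro v
    rw [(hinn v).1]
    constructor
    · rintro (⟨h | h, h'⟩ | ⟨h, -⟩)
      · exact Or.inl h
      · rw [h, g6] at h'
        exact absurd h' (by simp)
      · exact Or.inr h
    · rintro (rfl | rfl)
      · exact Or.inl ⟨Or.inl rfl, by rw [g1]; exact d8⟩
      · refine Or.inr ⟨rfl, ?_⟩
        rcases ha with ⟨h1, h2⟩ | ⟨h1, h2⟩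
        · rw [← h1, ← h2]; exact ⟨g3, g4⟩
        · rw [← h1, ← h2]; exact ⟨g4, g3⟩
  have i2 : ∀ v, v ∈ inn s A K' false ↔ v = e b ∨ v = w (e b) := by
    intro v
    rw [(hinn v).2]
    constructor
    · rintro (⟨h | h, -⟩ | ⟨rfl, h1, h2⟩)
      · exact Or.inl h
      · exact Or.inr h
      · exfalso
        rcases hb with ⟨_, h3⟩ | ⟨h3, _⟩
        · rw [← h3, g5] at h2
          exact absurd h2 (by simp)
        · rw [← h3, g5] at h1
          exact absurd h1 (by simp)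
    · rintro (rfl | rfl)
      · exact Or.inl ⟨Or.inl rfl, by rw [g2]; exact d7⟩
      · exact Or.inl ⟨Or.inr rfl, g7⟩
  refine ⟨K', d1, hEV V s A m K' hK.sinv hK.per hK.minv d1 (Or.inr (Or.inr ?_))⟩
  obtain ⟨x, hx⟩ : ∃ x, inn s A K' true = {x, s x} := by
    rcases ha with ⟨h1, _⟩ | ⟨_, h1⟩
    · refine ⟨u i, ?_⟩
      ext v
      rw [i1, mem_insert, mem_singleton, ← h1]
      exact or_comm
    · refine ⟨e a, ?_⟩
      ext v
      rw [i1, mem_insert, mem_singleton, h1, Equiv.apply_symm_apply]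
  obtain ⟨y, hy⟩ : ∃ y, inn s A K' false = {y, s y} := by
    rcases hK.tile _ (hZ.eA b) with h1 | h1
    · refine ⟨e b, ?_⟩
      ext v
      rw [i2, mem_insert, mem_singleton, h1]
    · refine ⟨w (e b), ?_⟩
      ext v
      rw [i2, mem_insert, mem_singleton, h1, Equiv.apply_symm_apply]
      exact or_comm
  exact ⟨x, y, hx, hy⟩

end Pool.Agent.Helper97.AN
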