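import Pool.Agent.Helper86.AN.Stmts

set_option autoImplicit false

/-!
# MP_4042d8_co (Ando): sorting the four special positions
-/

namespace Pool.Agent.Helper97.AN

open Pool.Agent.Helper86.AN Finset

theorem srt_core {V : Type} {s : Equiv.Perm V} {u : Bool → V} {n : ℤ} {e : ℤ → V}
    (he : ∀ k, e (k + n) = e k) (i : Bool) (p q r t : ℤ) (hp : 0 ≤ p) (hpq : p < q)
    (hq : q < n) (hrt : r < t) (ht : t < n) (hpr : p < r) (hqr : q ≠ r)
    (hqt : q ≠ t) (h1 : Sp s u i (e p) (e q)) (h2 : Sp s u (!i) (e r) (e t)) :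
    ∃ (i : Bool) (a b c d : ℤ), a < b ∧ b < c ∧ c < d ∧ d < a + n ∧
      ((Sp s u i (e a) (e c) ∧ Sp s u (!i) (e b) (e d)) ∨
       (Sp s u i (e a) (e b) ∧ Sp s u (!i) (e c) (e d))) := by
  rcases lt_or_gt_of_ne hqr with h | h
  · exact ⟨i, p, q, r, t, hpq, h, hrt, by omega, Or.inr ⟨h1, h2⟩⟩
  rcases lt_or_gt_of_ne hqt with h' | h'
  · exact ⟨i, p, r, q, t, hpr, h, h', by omega, Or.inl ⟨h1, h2⟩⟩
  · refine ⟨!i, r, t, q, p + n, hrt, h', by omega, by omega, Or.inr ⟨h2, ?_⟩⟩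
    rw [Bool.not_not, he]
    rcases h1 with ⟨h3, h4⟩ | ⟨h3, h4⟩
    · exact Or.inr ⟨h3, h4⟩
    · exact Or.inl ⟨h3, h4⟩

theorem st_SRT (hRF : ST_RF) : ST_SRT := by
  intro V _ _ s A m w u n e hK hZ hs
  obtain ⟨-, -, h3, -⟩ := hRF V s A m w u hK
  have he : ∀ k, e (k + n) = e k := by
    intro k
    rw [hZ.per]
    exact ⟨1, by ring⟩
  have hem : ∀ k, e (k % n) = e k := by
    intro k
    rw [hZ.per]
    refine ⟨-(k / n), ?_⟩
    have := Int.emod_add_mul_ediv k n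
    linarith
  have hn := hZ.npos
  have key : ∀ i, ∃ p q, 0 ≤ p ∧ p < q ∧ q < n ∧ Sp s u i (e p) (e q) := by
    intro i
    obtain ⟨⟨k, hk⟩, l, hl⟩ := hs i
    have k0 : 0 ≤ k % n := Int.emod_nonneg _ hn.ne'
    have k1 : k % n < n := Int.emod_lt_of_pos _ hn
    have l0 : 0 ≤ l % n := Int.emod_nonneg _ hn.ne'
    have l1 : l % n < n := Int.emod_lt_of_pos _ hn
    rw [← hem] at hk hl
    have hne : k % n ≠ l % n := by
      intro h
      apply (h3 i).2.2
      rw [← hk, ← hl, h]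
    rcases lt_or_gt_of_ne hne with h | h
    · exact ⟨k % n, l % n, k0, h, l1, Or.inl ⟨hk, hl⟩⟩
    · exact ⟨l % n, k % n, l0, h, k1, Or.inr ⟨hk, hl⟩⟩
  have hsep : ∀ x y, (x = s (u false) ∨ x = s.symm (u false)) →
      (y = s (u true) ∨ y = s.symm (u true)) → x ≠ y := by
    intro x y hx hy hxy
    apply hK.nsc
    have e1 : s.SameCycle (u false) x := by
      rcases hx with rfl | rfl
      · exact Equiv.Perm.sameCycle_apply_right.2 (Equiv.Perm.SameCycle.refl _ _)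
      · exact ⟨-1, by rw [zpow_neg_one, Equiv.Perm.inv_def]⟩
    have e2 : s.SameCycle (u true) y := by
      rcases hy with rfl | rfl
      · exact Equiv.Perm.sameCycle_apply_right.2 (Equiv.Perm.SameCycle.refl _ _)
      · exact ⟨-1, by rw [zpow_neg_one, Equiv.Perm.inv_def]⟩
    rw [← hxy] at e2
    exact e1.trans e2.symm
  obtain ⟨p, q, hp, hpq, hq, h1⟩ := key false
  obtain ⟨r, t, hr, hrt, ht, h2⟩ := key true
  have f1 : ∀ x, x = p ∨ x = q → (e x = s (u false) ∨ e x = s.symm (u false)) := by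
    rintro x (rfl | rfl)
    · rcases h1 with ⟨h, _⟩ | ⟨_, h⟩
      · exact Or.inl h
      · exact Or.inr h
    · rcases h1 with ⟨_, h⟩ | ⟨h, _⟩
      · exact Or.inr h
      · exact Or.inl h
  have f2 : ∀ x, x = r ∨ x = t → (e x = s (u true) ∨ e x = s.symm (u true)) := by
    rintro x (rfl | rfl)
    · rcases h2 with ⟨h, _⟩ | ⟨_, h⟩
      · exact Or.inl h
      · exact Or.inr h
    · rcases h2 with ⟨_, h⟩ | ⟨h, _⟩
      · exact Or.inr h
      · exact Or.inl h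
  have f3 : ∀ x y, (x = p ∨ x = q) → (y = r ∨ y = t) → x ≠ y := by
    intro x y hx hy hxy
    exact hsep _ _ (f1 x hx) (f2 y hy) (by rw [hxy])
  rcases lt_or_gt_of_ne (f3 p r (Or.inl rfl) (Or.inl rfl)) with h | h
  · exact srt_core he false p q r t hp hpq hq hrt ht h (f3 q r (Or.inr rfl) (Or.inl rfl))
      (f3 q t (Or.inr rfl) (Or.inr rfl)) h1 h2
  · exact srt_core he true r t p q hr hrt ht hpq hq h
      (f3 p t (Or.inl rfl) (Or.inr rfl)).symm (f3 q t (Or.inr rfl) (Or.inr rfl)).symm h2 h1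

end Pool.Agent.Helper97.AN
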